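import Pool.Agent.W886.MZ.Stm1

/-!
# MZ2-NUL: the null cover in exponential time
-/

set_option autoImplicit false

set_option maxHeartbeats 400000

namespace Pool.Agent.W160.MZ2

open Finset Filter Pool.Agent.NPC
open Pool.Agent.H622R2 Pool.Agent.H620R2.Gauge
open Pool.Agent.W911.AL Pool.Agent.W911.KM Pool.Agent.W886.MZ

attribute [local irreducible] unpair

/-- algorithm number `e` bets on the string number `j` -/
def Tg (h : ℕ → Bool) (e j : ℕ) : Bool :=
  decide (j + 1 = 2 ^ (str j).length) && h (str j).length && decide (e < rk h (str j).length)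

theorem rk_le (h : ℕ → Bool) (m : ℕ) : rk h m ≤ m := by
  unfold rk
  exact (List.length_filter_le _ _).trans (by rw [List.length_range])

theorem Tg_iff {h : ℕ → Bool} {e j : ℕ} : Tg h e j = true ↔
    j + 1 = 2 ^ (str j).length ∧ h (str j).length = true ∧ e < rk h (str j).length := by
  unfold Tg
  rw [Bool.and_eq_true, Bool.and_eq_true, decide_eq_true_iff, decide_eq_true_iff, and_assoc]

theorem Tg_lt {h : ℕ → Bool} {e j : ℕ} (hT : Tg h e j = true) : e < j := by
  obtain ⟨h1, _, h3⟩ := Tg_iff.1 hT
  have h4 := rk_le h (str j).length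
  have h5 : (str j).length < 2 ^ (str j).length := Nat.lt_two_pow_self
  omega

/-- the letters of `w` agree with the predictions of algorithm number `e` -/
def agZ (h : ℕ → Bool) (a : ℕ → ℕ → Bool) (e : ℕ) (w : List Bool) : Bool :=
  (List.range w.length).all (fun j => !(Tg h e j) || (w.getD j false == a e j))

/-- the number of the bets of algorithm number `e` on the first `ℓ` strings -/
def cntZ (h : ℕ → Bool) (e ℓ : ℕ) : ℕ := ((List.range ℓ).filter (fun j => Tg h e j)).length

/-- the bets of algorithm number `e` -/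
noncomputable def TZ (h : ℕ → Bool) (a : ℕ → ℕ → Bool) (e : ℕ) (w : List Bool) : ℝ :=
  if agZ h a e w = true then 2 ^ cntZ h e w.length / 2 ^ (e + 1) else 0

/-- all bets -/
noncomputable def DZ (h : ℕ → Bool) (a : ℕ → ℕ → Bool) (w : List Bool) : ℝ :=
  1 / 2 ^ (w.length + 1) + ∑ e ∈ range (w.length + 1), TZ h a e w

theorem TZ_nonneg (h : ℕ → Bool) (a : ℕ → ℕ → Bool) (e : ℕ) (w : List Bool) : 0 ≤ TZ h a e w := by
  unfold TZ
  split_ifs
  · positivity
  · exact le_rfl

theorem getD_append_lt' {w : List Bool} {b : Bool} {j : ℕ} (hj : j < w.length) :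
    (w ++ [b]).getD j false = w.getD j false := by
  rw [List.getD_eq_getElem?_getD, List.getD_eq_getElem?_getD, List.getElem?_append_left hj]

theorem agZ_append (h : ℕ → Bool) (a : ℕ → ℕ → Bool) (e : ℕ) (w : List Bool) (b : Bool) :
    agZ h a e (w ++ [b]) = (agZ h a e w && (!(Tg h e w.length) || (b == a e w.length))) := by
  unfold agZ
  rw [List.length_append, List.length_singleton, List.range_succ, List.all_append]
  congr 1
  · rw [Bool.eq_iff_iff, List.all_eq_true, List.all_eq_true]
    refine forall_congr' fun j => forall_congr' fun hj => ?_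
    rw [getD_append_lt' (List.mem_range.1 hj)]
  · simp only [List.all_cons, List.all_nil, Bool.and_true]
    have h : (w ++ [b]).getD w.length false = b := by
      rw [List.getD_eq_getElem?_getD]
      simp
    rw [h]

theorem cntZ_succ (h : ℕ → Bool) (e ℓ : ℕ) :
    cntZ h e (ℓ + 1) = cntZ h e ℓ + if Tg h e ℓ = true then 1 else 0 := by
  unfold cntZ
  rw [List.range_succ, List.filter_append, List.length_append]
  congr 1
  by_cases h : Tg h e ℓ = true <;> simp [h]

theorem TZ_avg (h : ℕ → Bool) (a : ℕ → ℕ → Bool) (e : ℕ) (w : List Bool) :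
    TZ h a e (w ++ [false]) + TZ h a e (w ++ [true]) = 2 * TZ h a e w := by
  unfold TZ
  simp only [agZ_append, List.length_append, List.length_singleton, cntZ_succ]
  by_cases hT : Tg h e w.length = true
  · cases hag : agZ h a e w
    · simp
    · cases hw : a e w.length <;> simp [hT, pow_succ] <;> ring
  · rw [Bool.not_eq_true] at hT
    cases hag : agZ h a e w <;> simp [hT] <;> ring

theorem TZ_far (h : ℕ → Bool) (a : ℕ → ℕ → Bool) {e : ℕ} {w : List Bool} (hw : w.length ≤ e) :
    TZ h a e w = 1 / 2 ^ (e + 1) := by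
  have h0 : ∀ j < w.length, Tg h e j = false := fun j hj => by
    by_contra hcon
    rw [Bool.not_eq_false] at hcon
    have := Tg_lt hcon
    omega
  have h1 : agZ h a e w = true := by
    unfold agZ
    rw [List.all_eq_true]
    intro j hj
    rw [h0 j (List.mem_range.1 hj)]
    rfl
  have h2 : cntZ h e w.length = 0 := by
    unfold cntZ
    rw [List.length_eq_zero_iff, List.filter_eq_nil_iff]
    intro j hj
    rw [h0 j (List.mem_range.1 hj)]
    exact Bool.false_ne_true
  unfold TZ
  rw [if_pos h1, h2, pow_zero]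

theorem DZ_avg (h : ℕ → Bool) (a : ℕ → ℕ → Bool) (w : List Bool) :
    DZ h a (w ++ [false]) + DZ h a (w ++ [true]) = 2 * DZ h a w := by
  unfold DZ
  simp only [List.length_append, List.length_singleton]
  rw [Finset.sum_range_succ _ (w.length + 1), Finset.sum_range_succ _ (w.length + 1),
    TZ_far h a (e := w.length + 1) (w := w ++ [false]) (by simp),
    TZ_far h a (e := w.length + 1) (w := w ++ [true]) (by simp)]
  have h1 : ∑ e ∈ range (w.length + 1), TZ h a e (w ++ [false]) +
      ∑ e ∈ range (w.length + 1), TZ h a e (w ++ [true]) =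
      2 * ∑ e ∈ range (w.length + 1), TZ h a e w := by
    rw [← Finset.sum_add_distrib, Finset.mul_sum]
    exact Finset.sum_congr rfl fun e _ => TZ_avg h a e w
  have h2 : (1 : ℝ) / 2 ^ (w.length + 1 + 1) + 1 / 2 ^ (w.length + 1 + 1) =
      1 / 2 ^ (w.length + 1) := by
    rw [pow_succ _ (w.length + 1)]
    field_simp
    norm_num
  linarith

/-- the numerator -/
def numZ (h : ℕ → Bool) (a : ℕ → ℕ → Bool) (w : List Bool) : ℕ :=
  2 + ((List.range (w.length + 1)).map (fun e =>
    if agZ h a e w = true then 2 ^ (cntZ h e w.length + (w.length + 1 - e)) else 0)).sum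

theorem DZ_eq (h : ℕ → Bool) (a : ℕ → ℕ → Bool) (w : List Bool) :
    DZ h a w = (numZ h a w : ℝ) / 2 ^ (w.length + 2) := by
  unfold DZ numZ
  rw [Nat.cast_add, add_div]
  congr 1
  · rw [pow_succ _ (w.length + 1), Nat.cast_ofNat]
    field_simp
  · have h1 : (((List.range (w.length + 1)).map (fun e => if agZ h a e w = true then
        2 ^ (cntZ h e w.length + (w.length + 1 - e)) else 0)).sum : ℕ) =
        ∑ e ∈ range (w.length + 1), if agZ h a e w = true then
          2 ^ (cntZ h e w.length + (w.length + 1 - e)) else 0 := rfl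
    rw [h1]
    push_cast
    rw [Finset.sum_div]
    refine Finset.sum_congr rfl fun e he => ?_
    rw [Finset.mem_range] at he
    unfold TZ
    by_cases hag : agZ h a e w = true
    · rw [if_pos hag, if_pos hag]
      have h2 : w.length + 2 = (e + 1) + (w.length + 1 - e) := by omega
      rw [h2, pow_add _ (e + 1), pow_add _ (cntZ h e w.length)]
      field_simp
    · rw [if_neg hag, if_neg hag, zero_div]

/-! ### the strings `0 ^ m` -/

theorem bits_two_pow (m : ℕ) : Nat.bits (2 ^ m) = List.replicate m false ++ [true] := by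
  induction m with
  | zero => simp
  | succ m ih =>
    rw [pow_succ, mul_comm, Nat.bit0_bits _ (by positivity), ih, List.replicate_succ,
      List.cons_append]

theorem str_two_pow {j m : ℕ} (hj : j + 1 = 2 ^ m) : str j = List.replicate m false := by
  unfold str
  rw [hj, bits_two_pow]
  simp

theorem filt (p : ℕ → Bool) (n : ℕ) :
    ((List.range n).filter p).length = ((range n).filter (fun i => p i = true)).card := by
  have h1 : ((range n).filter (fun i => p i = true)).card =
      ((List.range n).filter (fun i => decide (p i = true))).length := rfl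
  rw [h1]
  congr 1
  refine List.filter_congr fun i _ => ?_
  cases p i <;> rfl

theorem cntZ_large {h : ℕ → Bool} (hinf : {m | h m = true}.Infinite) (e K : ℕ) :
    ∃ n, e < n ∧ K ≤ cntZ h e n := by
  classical
  -- `rk h` is large
  obtain ⟨F1, hF1, hc1⟩ := hinf.exists_subset_card_eq (e + 1)
  obtain ⟨m0, hm0⟩ : ∃ m0, ∀ m ∈ F1, m < m0 := by
    refine ⟨F1.sup id + 1, fun m hm => ?_⟩
    have := Finset.le_sup (f := id) hm
    simp only [id_eq] at this
    omega
  have hrk : ∀ m, m0 ≤ m → e < rk h m := by
    intro m hm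
    have h1 : rk h m = ((range m).filter (fun i => h i = true)).card := filt h m
    rw [h1]
    have h2 : F1 ⊆ (range m).filter (fun i => h i = true) := by
      intro i hi
      rw [Finset.mem_filter, Finset.mem_range]
      exact ⟨(hm0 i hi).trans_le hm, hF1 hi⟩
    have h3 := Finset.card_le_card h2
    omega
  have hinf2 : ({m | h m = true} \ (range m0 : Set ℕ)).Infinite :=
    hinf.sdiff (Finset.finite_toSet _)
  obtain ⟨F2, hF2, hc2⟩ := hinf2.exists_subset_card_eq K
  obtain ⟨m1, hm1⟩ : ∃ m1, ∀ m ∈ F2, m < m1 := by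
    refine ⟨F2.sup id + 1, fun m hm => ?_⟩
    have := Finset.le_sup (f := id) hm
    simp only [id_eq] at this
    omega
  refine ⟨max (e + 1) (2 ^ m1), by omega, ?_⟩
  have h1 : cntZ h e (max (e + 1) (2 ^ m1)) =
      ((range (max (e + 1) (2 ^ m1))).filter (fun j => Tg h e j = true)).card :=
    filt (fun j => Tg h e j) _
  rw [h1, ← hc2]
  refine Finset.card_le_card_of_injOn (fun m => 2 ^ m - 1) ?_ ?_
  · intro m hm
    have hm' := hF2 hm
    rw [Set.mem_sdiff, Finset.mem_coe, Finset.mem_range, not_lt] at hm'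
    have h2 : 1 ≤ 2 ^ m := Nat.one_le_two_pow
    have h3 : 2 ^ m - 1 + 1 = 2 ^ m := by omega
    have h4 := str_two_pow h3
    have h5 : 2 ^ m < 2 ^ m1 := Nat.pow_lt_pow_right (by norm_num) (hm1 m hm)
    rw [Finset.mem_coe, Finset.mem_filter, Finset.mem_range]
    refine ⟨lt_of_lt_of_le (by simp only; omega) (le_max_right _ _), ?_⟩
    simp only
    rw [Tg_iff, h4, List.length_replicate]
    exact ⟨h3, hm'.1, hrk m hm'.2⟩
  · intro m _ m' _ hmm
    simp only at hmm
    have h2 : 1 ≤ 2 ^ m := Nat.one_le_two_pow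
    have h3 : 1 ≤ 2 ^ m' := Nat.one_le_two_pow
    exact Nat.pow_right_injective le_rfl (show 2 ^ m = 2 ^ m' by omega)

/-- the success of the bets -/
theorem DZ_large {h : ℕ → Bool} (hinf : {m | h m = true}.Infinite) {a : ℕ → ℕ → Bool}
    {L : Set (List Bool)} {e : ℕ} (hL : ∀ j, Tg h e j = true → (a e j = true ↔ str j ∈ L))
    (k : ℕ) : ∃ n, 1 ≤ DZ h a (prefL L n) / 2 ^ k := by
  classical
  obtain ⟨n, hn, hK⟩ := cntZ_large hinf e (e + 1 + k)
  refine ⟨n, ?_⟩
  obtain ⟨w, hw⟩ : ∃ w, w = prefL L n := ⟨_, rfl⟩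
  rw [← hw]
  have hl : w.length = n := by rw [hw]; exact length_prefL _ _
  have h1 : agZ h a e w = true := by
    unfold agZ
    rw [List.all_eq_true]
    intro j hj
    rw [List.mem_range, hl] at hj
    by_cases hT : Tg h e j = true
    · have h2 : w.getD j false = decide (str j ∈ L) := by
        rw [hw, prefL, List.getD_eq_getElem?_getD]
        simp [hj]
      rw [h2]
      have h3 : decide (str j ∈ L) = a e j := by
        rw [Bool.eq_iff_iff, decide_eq_true_iff]
        exact (hL j hT).symm
      simp [h3]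
    · simp [hT]
  have h2 : TZ h a e w = 2 ^ cntZ h e n / 2 ^ (e + 1) := by
    unfold TZ
    rw [if_pos h1, hl]
  have h3 : TZ h a e w ≤ DZ h a w := by
    unfold DZ
    have h5 : TZ h a e w ≤ ∑ m ∈ range (w.length + 1), TZ h a m w := by
      refine Finset.single_le_sum (fun m _ => TZ_nonneg h a m w) ?_
      rw [Finset.mem_range, hl]
      omega
    have h6 : (0 : ℝ) ≤ 1 / 2 ^ (w.length + 1) := by positivity
    linarith
  rw [le_div_iff₀ (by positivity), one_mul]
  refine le_trans ?_ h3
  rw [h2, le_div_iff₀ (by positivity), ← pow_add]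
  exact pow_le_pow_right₀ (by norm_num) (by omega)

/-! ### computations -/

theorem poly_str' {α : Type} [TEnc α] {j : α → ℕ} (hj : Poly j) : Poly (fun a => str (j a)) := by
  unfold str
  exact Poly.tail (Poly.reverse (Poly.natBits (Poly.succ hj)))

theorem upoly_len {α : Type} [TEnc α] {j : α → ℕ} (hj : Poly j) :
    UPoly (fun a => (str (j a)).length) := UPoly.length (poly_str' hj)

theorem poly_h {h : ℕ → Bool} (hh : Simple h) {α : Type} [TEnc α] {m : α → ℕ} (hm : UPoly m) :
    Poly (fun a => h (m a)) := by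
  have h1 : Poly (fun x : List Bool => [h x.length]) := poly_of_polyTime hh.2
  have h2 : Poly (fun a => List.replicate (m a) true) := Pool.Agent.H628R3.RO.p_replicate hm true
  have h3 : Poly (fun a => [h (List.replicate (m a) true).length]) := h1.comp h2
  refine (Poly.head?_getD h3 false).congr fun a => ?_
  simp

theorem poly_rk {h : ℕ → Bool} (hh : Simple h) {α : Type} [TEnc α] {m : α → ℕ} (hm : UPoly m) :
    Poly (fun a => rk h (m a)) := by
  have h1 : Poly (fun p : α × ℕ => h (min p.2 (m p.1))) := by
    refine poly_h hh (UPoly.of_le (Poly.min (Poly.snd Poly.id)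
      (UPoly.toPoly (hm.comp (Poly.fst Poly.id)))) (hm.comp (Poly.fst Poly.id))
      fun p => min_le_right _ _)
  have h2 : Poly (fun a => ((List.range (m a)).filter (fun i => h (min i (m a)))).length) :=
    Poly.length (Poly.filter (p := fun (a : α) (i : ℕ) => h (min i (m a))) (UPoly.range hm) h1)
  refine h2.congr fun a => ?_
  unfold rk
  congr 1
  refine List.filter_congr fun i hi => ?_
  rw [min_eq_left (List.mem_range.1 hi).le]

theorem poly_Tg {h : ℕ → Bool} (hh : Simple h) {α : Type} [TEnc α] {e j : α → ℕ} (he : Poly e)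
    (hj : Poly j) : Poly (fun a => Tg h (e a) (j a)) := by
  unfold Tg
  refine Poly.and (Poly.and (Poly.decide_eq (Poly.succ hj) (poly_pow2 (upoly_len hj)))
    (poly_h hh (upoly_len hj))) (Poly.decide_lt he (poly_rk hh (upoly_len hj)))

/-- the answers in a list -/
theorem poly_agZ {h : ℕ → Bool} (hh : Simple h) {α : Type} [TEnc α] {w l : α → List Bool}
    {e : α → ℕ} (hw : Poly w) (hl : Poly l) (he : Poly e) :
    Poly (fun i => agZ h (fun e' j => (l i).getD (e' * (w i).length + j) false) (e i) (w i)) := by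
  unfold agZ
  refine Poly.all (p := fun (i : α) (j : ℕ) => !(Tg h (e i) j) ||
    ((w i).getD j false == (l i).getD (e i * (w i).length + j) false))
    (UPoly.range (UPoly.length hw)) ?_
  have hw' : Poly (fun p : α × ℕ => w p.1) := hw.comp (Poly.fst Poly.id)
  have he' : Poly (fun p : α × ℕ => e p.1) := he.comp (Poly.fst Poly.id)
  have hj' : Poly (fun p : α × ℕ => p.2) := Poly.snd Poly.id
  have h1 : Poly (fun p : α × ℕ => Tg h (e p.1) p.2) := poly_Tg hh he' hj'
  have h2 : Poly (fun p : α × ℕ => (w p.1).getD p.2 false) :=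
    Poly.getD hw' hj' (NPC.Poly.const false)
  have h3 : Poly (fun p : α × ℕ => (l p.1).getD (e p.1 * (w p.1).length + p.2) false) :=
    Poly.getD (hl.comp (Poly.fst Poly.id)) (Poly.add (Poly.mul he' (Poly.length hw')) hj')
      (NPC.Poly.const false)
  exact Poly.or (Poly.not h1) ((Poly.decide_eq h2 h3).congr fun p => by
    cases (w p.1).getD p.2 false <;>
    cases (l p.1).getD (e p.1 * (w p.1).length + p.2) false <;> rfl)

theorem poly_cntZ {h : ℕ → Bool} (hh : Simple h) {α : Type} [TEnc α] {e ℓ : α → ℕ} (he : Poly e)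
    (hℓ : UPoly ℓ) : UPoly (fun i => cntZ h (e i) (ℓ i)) := by
  unfold cntZ
  refine UPoly.length (Poly.filter (p := fun (i : α) (j : ℕ) => Tg h (e i) j)
    (UPoly.range hℓ) ?_)
  exact poly_Tg hh (he.comp (Poly.fst Poly.id)) (Poly.snd Poly.id)

theorem poly_numZ {h : ℕ → Bool} (hh : Simple h) {α : Type} [TEnc α] {w l : α → List Bool}
    (hw : Poly w) (hl : Poly l) :
    Poly (fun i => numZ h (fun e' j => (l i).getD (e' * (w i).length + j) false) (w i)) := by
  have hw' : Poly (fun p : α × ℕ => w p.1) := hw.comp (Poly.fst Poly.id)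
  have hl' : Poly (fun p : α × ℕ => l p.1) := hl.comp (Poly.fst Poly.id)
  have hn' : Poly (fun p : α × ℕ => p.2) := Poly.snd Poly.id
  have h1 : UPoly (fun p : α × ℕ => cntZ h p.2 (w p.1).length + ((w p.1).length + 1 - p.2)) := by
    refine UPoly.add (poly_cntZ hh hn' (UPoly.length hw')) ?_
    refine UPoly.of_le (Poly.sub (Poly.succ (Poly.length hw')) hn')
      (UPoly.add (UPoly.length hw') (UPoly.const 1)) fun p => by omega
  unfold numZ
  refine Poly.add (NPC.Poly.const 2) (Poly.sum (NPC.Poly.map (F := fun (i : α) (e : ℕ) =>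
    if agZ h (fun e' j => (l i).getD (e' * (w i).length + j) false) e (w i) = true then
      2 ^ (cntZ h e (w i).length + ((w i).length + 1 - e)) else 0)
    (UPoly.range (UPoly.add (UPoly.length hw) (UPoly.const 1))) ?_))
  exact Poly.ite ((Poly.decide_eq (poly_agZ hh hw' hl' hn') (NPC.Poly.const true)))
    (poly_pow2 h1) (NPC.Poly.const 0)

theorem numZ_congr {h : ℕ → Bool} {a a' : ℕ → ℕ → Bool} {w : List Bool}
    (haa : ∀ e < w.length + 1, ∀ j < w.length, a e j = a' e j) : numZ h a w = numZ h a' w := by
  have h1 : ∀ e < w.length + 1, agZ h a e w = agZ h a' e w := by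
    intro e he
    unfold agZ
    rw [Bool.eq_iff_iff, List.all_eq_true, List.all_eq_true]
    refine forall_congr' fun j => forall_congr' fun hj => ?_
    rw [haa e he j (List.mem_range.1 hj)]
  unfold numZ
  congr 2
  refine List.map_congr_left fun e he => ?_
  rw [h1 e (List.mem_range.1 he)]

/-- question number `i` -/
def qq (W P i : ℕ) : List Bool :=
  List.replicate (min (i / W) W) true ++
    false :: List.replicate (min (2 ^ ((str (i % W)).length * (str (i % W)).length)) P) true

theorem poly_qq {α : Type} [TEnc α] {W P i : α → ℕ} (hW : UPoly W) (hP : UPoly P) (hi : Poly i) :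
    Poly (fun a => qq (W a) (P a) (i a)) := by
  unfold qq
  have h1 : UPoly (fun a => (str (i a % W a)).length) := upoly_len (Poly.mod hi hW.toPoly)
  refine Poly.append (Pool.Agent.H628R3.RO.p_replicate (UPoly.of_le (Poly.min (Poly.div hi
    hW.toPoly) hW.toPoly) hW fun a => min_le_right _ _) true) (Poly.cons (NPC.Poly.const false)
    (Pool.Agent.H628R3.RO.p_replicate (UPoly.of_le (Poly.min (poly_pow2 (UPoly.mul h1 h1))
      hP.toPoly) hP fun a => min_le_right _ _) true))

theorem qq_eq {W P e j : ℕ} (he : e ≤ W) (hj : j < W) (hP : 2 ^ (str j).length ^ 2 ≤ P) :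
    qq W P (e * W + j) = cs2 e (str j).length := by
  have h1 : (e * W + j) / W = e := by
    rw [mul_comm, Nat.mul_add_div (by omega), Nat.div_eq_of_lt hj, add_zero]
  have h2 : (e * W + j) % W = j := by
    rw [mul_comm, Nat.mul_add_mod, Nat.mod_eq_of_lt hj]
  unfold qq cs2
  rw [h1, h2, min_eq_left he, ← sq, min_eq_left hP]

theorem nul2 : S_NUL2 := by
  intro h hh A X hX
  obtain ⟨a, ha⟩ : ∃ a : ℕ → ℕ → Bool, ∀ e j, a e j = A (cs2 e (str j).length) :=
    ⟨fun e j => A (cs2 e (str j).length), fun _ _ => rfl⟩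
  have hD0 : ∀ w, 0 ≤ DZ h a w := by
    intro w
    unfold DZ
    have h1 : 0 ≤ ∑ n ∈ range (w.length + 1), TZ h a n w :=
      Finset.sum_nonneg fun n _ => TZ_nonneg _ _ _ _
    positivity
  refine ⟨fun i w => DZ h a w / 2 ^ i, ⟨fun i w => div_nonneg (hD0 w) (by positivity),
    fun i w => ?_, fun i => ?_, fun i L hL => ?_⟩, ?_⟩
  · beta_reduce
    have h1 := DZ_avg h a w
    have h2 : (DZ h a (w ++ [false]) / 2 ^ i + DZ h a (w ++ [true]) / 2 ^ i) / 2 =
        ((DZ h a (w ++ [false]) + DZ h a (w ++ [true])) / 2) / 2 ^ i := by ring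
    rw [h2, h1]
    apply le_of_eq
    ring
  · beta_reduce
    have h1 : DZ h a [] = 1 := by
      unfold DZ
      rw [List.length_nil, Finset.sum_range_one, TZ_far h a (e := 0) (w := []) (by simp)]
      norm_num
    rw [h1]
  · obtain ⟨e, he⟩ := hX L hL
    refine DZ_large hh.1 (a := a) (e := e) (fun j hT => ?_) i
    obtain ⟨h1, h2, h3⟩ := Tg_iff.1 hT
    rw [ha, he _ h2 h3, ← str_two_pow h1]
  -- the computation
  have hpad : Poly (fun x : List Bool => (unpair x).1) := Poly.fst poly_unpair
  have hz : Poly (fun x : List Bool => (unpair x).2) := Poly.snd poly_unpair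
  have hk : Poly (fun x : List Bool => (unpair (unpair x).2).1) :=
    Poly.fst (poly_unpair.comp hz)
  have hw : Poly (fun x : List Bool => (unpair (unpair (unpair x).2).2).2) :=
    Poly.snd (poly_unpair.comp (Poly.snd (poly_unpair.comp hz)))
  obtain ⟨wf, hwf⟩ : ∃ wf : List Bool → List Bool,
      wf = fun x => (unpair (unpair (unpair x).2).2).2 := ⟨_, rfl⟩
  obtain ⟨pf, hpf⟩ : ∃ pf : List Bool → List Bool, pf = fun x => (unpair x).1 := ⟨_, rfl⟩
  obtain ⟨kf, hkf⟩ : ∃ kf : List Bool → List Bool, kf = fun x => (unpair (unpair x).2).1 :=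
    ⟨_, rfl⟩
  rw [← hwf] at hw
  rw [← hpf] at hpad
  rw [← hkf] at hk
  have hQ : Poly (fun x : List Bool => (List.range (((wf x).length + 1) * (wf x).length)).map
      (fun i => qq (wf x).length (pf x).length i)) := by
    refine NPC.Poly.map (F := fun (x : List Bool) (i : ℕ) => qq (wf x).length (pf x).length i)
      (UPoly.range (UPoly.mul (UPoly.add (UPoly.length hw) (UPoly.const 1)) (UPoly.length hw))) ?_
    exact poly_qq (UPoly.length (hw.comp (Poly.fst Poly.id)))
      (UPoly.length (hpad.comp (Poly.fst Poly.id))) (Poly.snd Poly.id)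
  have hH : Poly (fun p : List Bool × List Bool => pairBits
      (Nat.bits (numZ h (fun e' j => p.2.getD (e' * (wf p.1).length + j) false) (wf p.1)))
      (pairBits [] (List.replicate ((kf p.1).length + (wf p.1).length + 2) true))) := by
    have h1 : Poly (fun p : List Bool × List Bool => wf p.1) := hw.comp (Poly.fst Poly.id)
    have h2 : Poly (fun p : List Bool × List Bool => kf p.1) := hk.comp (Poly.fst Poly.id)
    refine poly_pairBits (Poly.natBits (poly_numZ hh h1 (Poly.snd Poly.id)))
      (poly_pairBits (NPC.Poly.const []) (Pool.Agent.H628R3.RO.p_replicate ?_ true))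
    exact UPoly.add (UPoly.add (UPoly.length h2) (UPoly.length h1)) (UPoly.const 2)
  refine ⟨_, ⟨_, IsFP.tt (A := A) hQ hH, fun z => rfl⟩, fun i r w => ?_⟩
  obtain ⟨x, hx⟩ : ∃ x, x = qpad 2 (Pool.Agent.W911.KM.inp i r w) := ⟨_, rfl⟩
  rw [← hx]
  have e1 : (kf x).length = i := by
    rw [hkf, hx]
    simp only [qpad, Pool.Agent.W911.KM.inp, unpair_pairBits, List.length_replicate]
  have e2 : wf x = w := by
    rw [hwf, hx]
    simp only [qpad, Pool.Agent.W911.KM.inp, unpair_pairBits]
  have e5 : (pf x).length = 2 ^ (Nat.size (Pool.Agent.W911.KM.inp i r w).length) ^ 2 := by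
    rw [hpf, hx]
    simp only [qpad, unpair_pairBits, List.length_replicate]
  have e6 : w.length ≤ (Pool.Agent.W911.KM.inp i r w).length := by
    unfold Pool.Agent.W911.KM.inp
    rw [length_pairBits, length_pairBits]
    omega
  simp only [e1, e2]
  have e3 : numZ h (fun e' j => (((List.range ((w.length + 1) * w.length)).map
      (fun i => qq w.length (pf x).length i)).map A).getD (e' * w.length + j) false) w =
      numZ h a w := by
    apply numZ_congr
    intro e he j hj
    have h1 : e * w.length + j < (w.length + 1) * w.length := by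
      have h2 : e * w.length ≤ w.length * w.length := Nat.mul_le_mul_right _ (by omega)
      have h3 : (w.length + 1) * w.length = w.length * w.length + w.length := by ring
      omega
    rw [List.getD_eq_getElem?_getD]
    simp only [List.map_map, List.getElem?_map, List.getElem?_range h1, Option.map_some,
      Option.getD_some, Function.comp_apply]
    rw [ha, qq_eq (by omega) hj]
    rw [e5]
    refine Nat.pow_le_pow_right (by norm_num) (Nat.pow_le_pow_left ?_ 2)
    refine (Nat.lt_size.2 ?_).le
    rw [length_str]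
    exact (Nat.pow_log_le_self 2 (by omega)).trans (by omega)
  rw [e3]
  have e4 : dy (pairBits (Nat.bits (numZ h a w))
      (pairBits [] (List.replicate (i + w.length + 2) true))) = DZ h a w / 2 ^ i := by
    unfold dy
    simp only [unpair_pairBits, valB_bits, valB_nil, List.length_replicate]
    rw [DZ_eq, Nat.cast_zero, sub_zero, div_div, ← pow_add]
    congr 2
    omega
  rw [e4, sub_self, abs_zero]
  positivity

end Pool.Agent.W160.MZ2
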